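import Pool.Agent.W394.BQN.Stm

/-!
# Bass-Quillen for iterated affine modifications: the main theorem from base change and the
induction step
-/

set_option autoImplicit false

open Polynomial

noncomputable section

namespace Pool.Agent.W538.BQN

open BQ Pool.Agent.W394.BQN

theorem main0 (h1 : S_LG) (h2 : S_NS) (n : ℕ) : ∀ (V D : Type) [CommRing V] [IsDomain V]
    [IsPrincipalIdealRing V] [CommRing D] (j : V →+* D), GoodN n V D j → IdemFree D := by
  induction n with
  | zero =>
    intro V D _ _ _ _ j h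
    obtain ⟨k, e, -⟩ := h
    exact IdemFree.of_equiv e (quillen_suslin k V)
  | succ n ih =>
    intro V D _ _ _ _ j h
    obtain ⟨C, _, j₀, u, e, hg, hn, -⟩ := h
    obtain ⟨hdom, Ω, _, _, ι, j', hL, hg', -⟩ := h1 n V C j₀ hg
    have hC : IdemFree C := ih V C j₀ hg
    have hΩ : IdemFree Ω := ih (VV V) Ω j' hg'
    exact IdemFree.of_equiv e (h2 V C Ω j₀ ι u hL hC hΩ hn)

theorem t_MAIN (h1 : S_LG) (h2 : S_NS) : S_MAIN := by
  intro m
  induction m with
  | zero =>
    intro n V D _ _ _ _ j h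
    exact IdemFree.of_equiv (MvPolynomial.isEmptyRingEquiv D (Fin 0)).symm
      (main0 h1 h2 n V D j h)
  | succ m ih =>
    intro n V D _ _ _ _ j h
    obtain ⟨hdom, Ω, _, _, ι, j', hL, hg', -⟩ := h1 n V D j h
    obtain ⟨ι', h', -, -⟩ := locRel_mv j ι hL m
    have h3 := var_poly _ ι' h' (ih n V D j h) (ih n (VV V) Ω j' hg')
    exact IdemFree.of_equiv (MvPolynomial.finSuccEquiv D m).symm.toRingEquiv h3

end Pool.Agent.W538.BQN
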